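import Pool.Agent.H80.NYU.HuU
import Pool.Agent.H73.D2.Tmy

/-!
# The tube label of `u` at the scale of a record

`hu_rec`: `HuT` from the record, for `u` static or steep over coordinates of slope one, with the pairs
`(t + au q, t)` and `(t + au q, t + a q)`.
-/

set_option autoImplicit false

namespace Pool.PKG

open Finset Real
open Pool.Agent.H49.Ent Pool.Agent.H32.Dense Pool.STK Pool.KA Pool.KSAT Pool.K2S Pool.PB
open Pool.GEN Pool.S6C Pool.STAT Pool.CHT Pool.GRW Pool.ONE Pool.STA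
open Pool.LBT (LSys ThrOf)
open Pool.LEV (Law)
open Pool.ALL (RateOf)
open Pool.ISO (PtD lvN WinD)
open Pool.V1E (vG vG_ge HuT huu_con)

/-- **The tube label of** `u`, at the place `r`, closed at the window of the target, at the scale of a
record. -/
theorem hu_rec (m r S₂ : ℕ) (hr : 1 ≤ r) (hS₂ : 1 ≤ S₂) : ∃ Du : ℕ, 1 ≤ Du ∧ ∀ D : ℕ, 1 ≤ D →
    ∃ C₁ : ℝ, 1 ≤ C₁ ∧ ∀ {S : PCl m} {al : ℝ} {g₀ : ℝ → ℝ}
    {P : List (Fin m) × Fin m → ℝ → ℝ → ℝ} {θ : ℝ}
    {P₂ : ℕ → List (Fin m) × Fin m → ℝ → ℝ → ℝ} {θ₂ Eb e₂ : ℕ → ℝ}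
    {c : ℕ → Fin m} {Pt : ℝ → ℝ → ℝ} {rt : ℝ → ℝ} {h K₀ g : ℝ} {L T : ℕ → ℝ → ℝ → ℝ}
    {Sl : ℕ → ℝ} {κ : ℕ → Kg} {G : Set ℝ} {S₀ N : ℕ} {A V : ℕ → ℝ} {N' : ℕ} {V' : ℕ → ℝ}
    {K ε q t : ℝ},
    RecG S al g₀ P θ P₂ θ₂ Eb e₂ c Pt rt h K₀ g L T Sl κ G S₀ N A V S₂ N' V' K ε q t →
    r + 1 < m → (∀ l < r, κ l = .one) → κ r = .stp ∨ κ r = .sta →
    ∀ {y a au k₁ hh X C : ℝ} {vw : ℕ → ℝ} {Rg : ℕ → Prop} (Dr N₁ N₂ : ℕ), 1 ≤ N₁ → 2 ≤ N₂ →
    ¬ Rg r → 0 ≤ y → y ≤ a → a + 1 ≤ au → (Sl r - 1) * a ≤ au → au ≤ K → 0 ≤ k₁ → k₁ ≤ K →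
    (∃ j < N, A j = au ∧ V j = 0) → (∃ j < N, A j = au ∧ V j = a) → 0 < hh → 0 ≤ ε →
    C₁ * ε ≤ hh → C₁ * hh ≤ X → C₁ * hh ≤ 1 → ∃ K₄ : ℝ, 0 < K₄ ∧ ∀ κ₁ : ℝ,
      HuT S c r D Du Dr N₁ N₂ Rg C (t + a * q) (Eb (r + 1)) (3 * ε * q) (hh * q) (X * q)
        (L (r + 1)) (fun k => t + vG y k₁ vw k * q)
        (fun k l => lvN P c (r + 1) (L (r + 1)) l (t + vG y k₁ vw k * q) (t + vG y k₁ vw k * q))
        (fun k l => bet P c l (t + a * q) (t + vG y k₁ vw k * q)) κ₁ K₄ := by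
  obtain ⟨Du, hDu, hhu⟩ := huu_con m r S₂ hr hS₂
  refine ⟨Du, hDu, fun D hD => ?_⟩
  obtain ⟨C₁, hC₁, hhu⟩ := hhu D hD
  refine ⟨4 * C₁ + 4, by linarith, ?_⟩
  intro S al g₀ P θ P₂ θ₂ Eb e₂ c Pt rt h K₀ g L T Sl κ G S₀ N A V N' V' K ε q t R hrm hκ hκu y a
    au k₁ hh X C vw Rg Dr N₁ N₂ hN₁ hN₂ hRg hy hya hau hsau hauK hk₁ hk₁K hp0 hp1 hhh hε hCε hCh
    hC1
  have hq := R.q0
  have ht0 := R.t0
  have ht1 := R.t1
  have hC₁0 : 0 < C₁ := by linarith
  have W := R.tg r hr (by omega)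
  -- products
  have mq : ∀ {x z : ℝ}, x ≤ z → x * q ≤ z * q := fun h => mul_le_mul_of_nonneg_right h hq.le
  have hεq : 0 ≤ ε * q := mul_nonneg hε hq.le
  have hhq : 0 < hh * q := mul_pos hhh hq
  have hCε' : 4 * (C₁ * ε) + 4 * ε ≤ hh := by linarith
  have hCεq : 0 ≤ C₁ * ε := mul_nonneg hC₁0.le hε
  have hCεq' : 0 ≤ C₁ * (ε * q) := mul_nonneg hC₁0.le hεq
  have hεh : 4 * (ε * q) ≤ hh * q := by
    have := mq (show 4 * ε ≤ hh by linarith)
    linarith
  have hε3 : 4 * (C₁ * (ε * q)) ≤ hh * q := by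
    have := mq (show 4 * (C₁ * ε) ≤ hh by linarith)
    linarith
  have hCh0 : 0 < C₁ * (hh * q) := mul_pos hC₁0 hhq
  have hChq : C₁ * (hh * q) ≤ q / 4 := by
    have h1 : 4 * (C₁ * hh) ≤ 1 := by
      have h2 : (4 * C₁ + 4) * hh = 4 * (C₁ * hh) + 4 * hh := by ring
      linarith
    have := mq h1
    linarith
  have hChX : C₁ * (hh * q) ≤ X * q := by
    have h1 : C₁ * hh ≤ X := by
      have h2 : (4 * C₁ + 4) * hh = 4 * (C₁ * hh) + 4 * hh := by ring
      have h3 : 0 < C₁ * hh := mul_pos hC₁0 hhh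
      linarith
    have := mq h1
    linarith
  have hhq1 : hh * q ≤ C₁ * (hh * q) := le_mul_of_one_le_left hhq.le hC₁
  have ha0 : 0 ≤ a := hy.trans hya
  have haq : 0 ≤ a * q := mul_nonneg ha0 hq.le
  have hyq : 0 ≤ y * q := mul_nonneg hy hq.le
  have hyaq := mq hya
  have hauq : a * q + q ≤ au * q := by
    have := mq hau
    linarith
  have hauKq := mq hauK
  have hk₁q : 0 ≤ k₁ * q := mul_nonneg hk₁ hq.le
  have hk₁Kq := mq hk₁K
  have hK1 : 1 ≤ K := by linarith
  have hKq : q ≤ K * q := by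
    have := mq hK1
    linarith
  have hsauq : Sl r * (a * q) - a * q ≤ au * q := by
    have := mq hsau
    linarith
  -- windows
  have e0 : t + vG y k₁ vw 0 * q = t := by simp [vG]
  have e1 : t + vG y k₁ vw 1 * q = t + y * q := by norm_num [vG]
  have e2 : t + vG y k₁ vw 2 * q = t - k₁ * q := by
    norm_num [vG]
    ring
  have hlv : ∀ l ≤ r, ∀ a w : ℝ, lvN P c r (L r) l a w = L l a w :=
    fun l hl a w => by rw [← R.lv_at (show r < m by omega) hl]
  have hlv' : ∀ l ≤ r + 1, ∀ a w : ℝ, lvN P c (r + 1) (L (r + 1)) l a w = L l a w :=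
    fun l hl a w => by rw [← R.lv_at hrm hl]
  have hbe : ∀ l ≤ r, bet P c l = L l := fun l hl => (R.lv_lt (l := l) (by omega)).symm
  have hw1 : ∀ w : ℝ, w = t ∨ w = t + a * q → t ≤ w ∧ w ≤ t + a * q := fun w hw => by
    rcases hw with rfl | rfl
    · exact ⟨le_rfl, by linarith⟩
    · exact ⟨by linarith, le_rfl⟩
  have hxK : ∀ x : ℝ, t ≤ x → x ≤ t + au * q → |x - t| ≤ K * q := fun x h1 h2 => by
    rw [abs_le]
    constructor <;> linarith
  have dL : ∀ l ≤ r, ∀ x : ℝ, |x - t| ≤ K * q → |L l x x - L l t t - Sl l * (x - t)| ≤ ε * q :=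
    fun l hl x hx => R.dL l (by omega) x hx
  have sl1 : ∀ l < r, Sl l = 1 := fun l hl => by
    have h2 := R.kd l (by omega)
    rw [hκ l hl] at h2
    exact h2
  have hax := hxK (t + a * q) (by linarith) (by linarith)
  have e3 : t + a * q - t = a * q := by ring
  have e4 : t + au * q - t = au * q := by ring
  obtain ⟨C₄, hC₄⟩ : ∃ C₄ : ℕ, C₄ = 0 := ⟨_, rfl⟩
  refine hhu (S := S) (P := P) (θ := θ) (c := c) (Pt := L (r + 1)) (Pu := L r) (R := Rg)
    (Rw := fun _ => True) (C := C) (a := t + a * q) (au := t + au * q) (Eb := Eb (r + 1))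
    (Eu := Eb r) (ε₁ := 3 * ε * q) (ε₀ := 3 * ε * q) (η₀ := hh * q) (χ := X * q)
    (o := fun k => t + vG y k₁ vw k * q) Dr N₁ N₂ hN₁ hN₂ R.thr R.th0 R.tmh (R.inj.mono fun x hx => by
      rw [Set.mem_Iio] at hx ⊢
      omega) (R.lawL r (by omega)) W.Eb0.le (fun w hw => ?_) (fun l _ => trivial) ?_ hChX
    (fun w hw => ?_) (by linarith) (fun l hl => ?_) (fun l hl => ⟨fun hR => ?_, fun hR => ?_⟩)
    (fun hR => absurd hR hRg) (fun _ => ?_)
  · -- the rows
    obtain ⟨j0, hj0, hA0, hV0⟩ := hp0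
    obtain ⟨j1, hj1, hA1, hV1⟩ := hp1
    rw [e0] at hw
    rcases hw with rfl | rfl
    · have h3 := R.winD (i := r) hr (by omega) hj0 (by rw [hV0]; linarith)
        (by rw [hA0, hV0]; linarith) (by rw [hA0]; exact hauK) (ε' := 3 * ε * q) le_rfl hε
        (Rg := fun _ => True) (fun l hl _ => Or.inl (hκ l hl))
      rw [hA0, hV0, zero_mul, add_zero] at h3
      exact h3
    · have h3 := R.winD (i := r) hr (by omega) hj1 (by rw [hV1]; linarith)
        (by rw [hA1, hV1]; linarith) (by rw [hA1]; exact hauK) (ε' := 3 * ε * q) le_rfl hε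
        (Rg := fun _ => True) (fun l hl _ => Or.inl (hκ l hl))
      rw [hA1, hV1] at h3
      exact h3
  · have h1 : C₁ * (3 * ε * q) = 3 * (C₁ * (ε * q)) := by ring
    rw [h1]
    linarith
  · rw [e0] at hw
    obtain ⟨h1, h2⟩ := hw1 w hw
    refine ⟨by linarith, ?_, ?_, by linarith, fun l hl => ?_, fun l hl => ?_⟩
    · have := R.low_at (i := r) (by omega) (a := t + au * q) (w := w) (by linarith) (by linarith)
        (by linarith)
      linarith
    · rw [hlv r le_rfl]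
      have := R.low_at (i := r) (by omega) (a := w) (w := w) (by linarith) le_rfl (by linarith)
      linarith
    · rw [hlv l hl]
      have := W.room l hl w (hxK w h1 (by linarith))
      linarith
    · rw [hbe l hl.le]
      have h3 := (R.lawL l (by omega)).mono_w (t + au * q) w (t + au * q) (by linarith)
        (by linarith) le_rfl (by linarith)
      have := W.room l hl.le (t + au * q) (hxK _ (by linarith) le_rfl)
      linarith
  · -- the natural levels
    have h1 := abs_le.1 (dL l hl.le _ hax)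
    have h2 := abs_le.1 (dL l hl.le (t - k₁ * q) (by
      rw [abs_le]
      constructor <;> linarith))
    rw [sl1 l hl] at h1 h2
    simp only [e0, e2]
    rw [hlv l hl.le, hlv' l (by omega), hlv' l (by omega)]
    constructor
    · linarith [h1.2]
    · linarith [h1.2, h2.1]
  · have hlr : l < r := by
      rcases Nat.lt_or_ge l r with h | h
      · exact h
      · exact absurd (show Rg r by
          have : l = r := by omega
          rw [← this]
          exact hR) hRg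
    have h1 := abs_le.1 (dL l hl _ hax)
    have h2 := abs_le.1 (dL l hl (t + y * q) (hxK _ (by linarith) (by linarith)))
    rw [sl1 l hlr] at h1 h2
    simp only [e1]
    rw [hlv l hl, hlv' l (by omega)]
    linarith [h1.1, h2.2]
  · simp only [e1]
    rw [hlv l hl, hbe l hl]
    have := (R.lawL l (by omega)).mono_w (t + a * q) (t + y * q) (t + a * q) (by linarith)
      (by linarith) le_rfl (by linarith)
    linarith
  · -- the level of `u`
    simp only [e0, e1]
    rw [hbe r le_rfl]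
    have h1 := (R.lawL r (by omega)).mono_w (t + a * q) (t + y * q) (t + a * q) (by linarith)
      (by linarith) le_rfl (by linarith)
    have h2 := abs_le.1 (dL r le_rfl _ hax)
    rw [e3] at h2
    have h4 := R.kd r (by omega)
    rcases hκu with hk | hk
    · rw [hk] at h4
      have h5 := h4.2 (t + au * q) t (by linarith) (by linarith) (by linarith)
      obtain ⟨j0, hj0, hA0, hV0⟩ := hp0
      have h6 := (R.TL _ hj0 r (by omega)).1
      rw [hA0, hV0, zero_mul, add_zero] at h6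
      have h7 := abs_le.1 (R.dT r (by omega) t (by rw [sub_self, abs_zero]; linarith))
      rw [sub_self, mul_zero] at h7
      linarith [h2.2, h7.1]
    · rw [hk] at h4
      have h5 := h4.2 (t + au * q) t (by linarith) (by linarith) (by linarith)
      have h6 := abs_le.1 (dL r le_rfl _ (hxK (t + au * q) (by linarith) le_rfl))
      rw [e4] at h6
      have h7 : Sl r * (a * q) - a * q ≤ Sl r * (au * q) - au * q := by
        have h8 : 0 ≤ (Sl r - 1) * (au * q - a * q) :=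
          mul_nonneg (by linarith [h4.1]) (by linarith)
        have h9 : (Sl r - 1) * (au * q - a * q) =
          (Sl r * (au * q) - au * q) - (Sl r * (a * q) - a * q) := by ring
        linarith
      linarith [h2.2, h6.1]

end Pool.PKG
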