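import Pool.Agent.H80.NYU.Ev
import Pool.Agent.H73.D2.Tme

/-!
# The tube label of the coordinate `u`, closed at the window of the target

`HuT`: for the windows `WG` at the level `r + 1`, a polynomial of the coordinates before `u = c r`,
closed at the window `o 0`, whose derivative in each natural direction of the frame is near the
derivative of the tube label of `u` which is closed at the deep window `o 1`. `huu_con`: from rows of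
`u` at a larger radius `au`, for the windows `o 0` and `a`.
-/

set_option autoImplicit false

namespace Pool.V1E

open Finset Real MvPolynomial
open Pool.Agent.H49.Ent Pool.Agent.H32.Dense Pool.STK Pool.KA Pool.KSAT Pool.K2S Pool.PB Pool.S6C
open Pool.GEN Pool.CHT Pool.CHX Pool.ISO Pool.D2R Pool.D2G30 Pool.END18 Pool.D2Con
open Pool.LBT (ThrOf)
open Pool.LEV (Law)

variable {m : ℕ}

/-- **The tube label of** `u = c r`, closed at the window `o 0`, on a part of mass at least `1 / K₄` of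
each event with the windows `WG` at the level `r + 1`. -/
def HuT (S : PCl m) (c : ℕ → Fin m) (r D Du Dr N N₂ : ℕ) (R : ℕ → Prop) (C a Eb ε₀ η₀ χ : ℝ)
    (Pt : ℝ → ℝ → ℝ) (o : ℕ → ℝ) (lv be : ℕ → ℕ → ℝ) (κ K₄ : ℝ) : Prop :=
  Bas S (fun J F B => ∀ (b : ℕ → ℕ → ℝ) (z : ℕ → ℕ → ℕ) (gc gT g₀ : ℕ → ℕ → ℕ)
    (G : ℕ → PtT F → ℕ → MvPolynomial (Option (Fin m)) ℝ)
    (H : ℕ → LnT F → ℕ → MvPolynomial (Option (Fin m)) ℝ)
    (T : ℕ → PtT F → ℕ → MvPolynomial (Option (Fin m)) ℝ)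
    (TH : ℕ → LnT F → ℕ → MvPolynomial (Option (Fin m)) ℝ)
    (Gt : ℕ → PtT F → MvPolynomial (Option (Fin m)) ℝ)
    (Ht : ℕ → LnT F → MvPolynomial (Option (Fin m)) ℝ),
    WG c (r + 1) D Dr N N₂ R C a Eb ε₀ η₀ Pt o lv be F b κ z B gc gT g₀ G H T TH Gt Ht →
    ∃ (B₂ : F.Ω → Prop) (TU : LnT F → MvPolynomial (Option (Fin m)) ℝ), Sub B₂ B ∧
      Pe F.p B ≤ K₄ * Pe F.p B₂ ∧ (∀ s, (TU s).totalDegree ≤ Du) ∧ (∀ s, DepC c r (TU s)) ∧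
      ∀ ω, B₂ ω → ∀ V : Option (Fin m) → ℝ, V none = 0 →
        (∀ j < r, |V (some (c j)) - dd (G 2 (ptr F J ω) j) (bt F ω) V| ≤
          1 / 2 ^ ⌊lv 0 j * J⌋₊) →
        |dd (TU (slam F ⌊o 0 * J⌋₊ ω)) (bt F ω) V -
          dd (TH 1 (slam F ⌊o 1 * J⌋₊ ω) r) (bt F ω) V| ≤
          2 ^ ⌊χ * J⌋₊ * 2 ^ (⌊a * J⌋₊ - ⌊o 0 * J⌋₊) / 2 ^ gT 1 r)

/-- **The tube label of** `u`, from rows of `u` at the radius `au`, for the windows `o 0` and `a`. -/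
theorem huu_con (m r S₀ : ℕ) (hr : 1 ≤ r) (hS₀ : 1 ≤ S₀) : ∃ Du : ℕ, 1 ≤ Du ∧ ∀ D : ℕ, 1 ≤ D →
    ∃ C₁ : ℝ, 1 ≤ C₁ ∧ ∀ {S : PCl m} {P : List (Fin m) × Fin m → ℝ → ℝ → ℝ} {θ : ℝ}
    {c : ℕ → Fin m} {Pt Pu : ℝ → ℝ → ℝ} {R Rw : ℕ → Prop} {C a au Eb Eu ε₁ ε₀ η₀ χ : ℝ}
    {o : ℕ → ℝ} {lv be : ℕ → ℕ → ℝ} (Dr N N₂ : ℕ), 1 ≤ N → 2 ≤ N₂ →
    ThrOf (chsys m θ) S P → 0 < θ → TmH S → Set.InjOn c (Set.Iio (r + 1)) → Law Pu → 0 ≤ Eu →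
    (∀ w : ℝ, w = o 0 ∨ w = a → WinD S P θ c r Pu au w S₀ Eu ε₀ Rw) → (∀ l < r, Rw l) →
    C₁ * ε₀ < η₀ → C₁ * η₀ ≤ χ →
    (∀ w : ℝ, w = o 0 ∨ w = a → C₁ * η₀ ≤ w ∧ C₁ * η₀ ≤ Pu au w ∧
      C₁ * η₀ ≤ lvN P c r Pu r w w ∧ w + C₁ * η₀ ≤ au ∧
      (∀ l ≤ r, lvN P c r Pu l w w + (au - w) + (Eu + 2 * η₀) < 1) ∧
      ∀ l < r, bet P c l au w + (Eu + 2 * η₀) < 1) → au ≤ 1 →
    (∀ l < r, lvN P c r Pu l a a ≤ lv 0 l + (a - o 0) + η₀ ∧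
      lvN P c r Pu l a a ≤ lv 2 l + (a - o 2) + η₀) →
    (∀ l ≤ r, (R l → lv 1 l + (a - o 1) ≤ lvN P c r Pu l a a + η₀) ∧
      (¬ R l → be 1 l ≤ lvN P c r Pu l a a + η₀)) →
    (R r → lv 1 r + (a - o 1) + (au - a) ≤ Pu au (o 0) + η₀) →
    (¬ R r → be 1 r + (au - a) ≤ Pu au (o 0) + η₀) →
    ∃ K₄ : ℝ, 0 < K₄ ∧ ∀ κ : ℝ,
      HuT S c r D Du Dr N N₂ R C a Eb ε₁ η₀ χ Pt o lv be κ K₄ := by
  obtain ⟨Du, hDu, hwg⟩ := wg_con m r S₀ hr hS₀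
  refine ⟨Du, hDu, fun D hD => ?_⟩
  obtain ⟨D₂, hD₂⟩ : ∃ D₂, D₂ = max D Du := ⟨_, rfl⟩
  have hD2 : D ≤ D₂ := by omega
  have hDu2 : Du ≤ D₂ := by omega
  obtain ⟨C', hC', hwg⟩ := hwg D₂ hDu2
  obtain ⟨C₂, hC₂, htub⟩ := tub_u D₂ r (by omega)
  have hC₂R : (1 : ℝ) ≤ C₂ := by exact_mod_cast hC₂
  have hC'0 : 0 < C' := by linarith
  obtain ⟨C₁, hC₁⟩ : ∃ C₁ : ℝ, C₁ = C₂ * (4 * C' + 4) + 4 * C' + 4 := ⟨_, rfl⟩
  have hC2C : 0 ≤ C₂ * (4 * C' + 4) := by positivity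
  refine ⟨C₁, by linarith, ?_⟩
  intro S P θ c Pt Pu R Rw C a au Eb Eu ε₁ ε₀ η₀ χ o lv be Dr N N₂ hN hN₂ hP hθ hS hinj hPu hEu hW
    hRw hεη hχ hw hau hl1 hl2 hl3 hl4
  have hε₀ : 0 ≤ ε₀ := (hW a (Or.inr rfl)).ε0
  have hη0 : 0 < η₀ := lt_of_le_of_lt (mul_nonneg (by linarith) hε₀) hεη
  have hCη : 4 * (C' * η₀) ≤ C₁ * η₀ := by
    have : (4 * C') * η₀ ≤ C₁ * η₀ := mul_le_mul_of_nonneg_right (by linarith) hη0.le
    linarith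
  have hCη0 : 0 < C' * η₀ := by positivity
  obtain ⟨o', ho'⟩ : ∃ o' : ℕ → ℝ, o' = fun k => if k = 0 then o 0 else a := ⟨_, rfl⟩
  have o0 : o' 0 = o 0 := by simp [ho']
  have o1 : o' 1 = a := by simp [ho']
  have hok : ∀ k, o' k = o 0 ∨ o' k = a := fun k => by
    rw [ho']
    by_cases h : k = 0
    · left; simp [h]
    · right; simp [h]
  obtain ⟨K₁, b', hK₁, hwg⟩ := hwg (S := S) (P := P) (θ := θ) (c := c) (Pt := Pu) (R := Rw)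
    (a := au) (Eb := Eu) (ε₀ := ε₀) (η₀ := η₀) (o := o') 1 1 le_rfl hP hθ hS hinj hPu hEu
    (fun k _ => hW _ (hok k)) (fun k h1 h2 => absurd h1 (by omega))
    (lt_of_le_of_lt (mul_le_mul_of_nonneg_right (by linarith) hε₀) hεη)
    (fun k _ => by
      obtain ⟨h1, h2, h3, -⟩ := hw _ (hok k)
      exact ⟨by linarith, by linarith, by linarith⟩)
    (fun k _ => by
      obtain ⟨-, -, -, h4, -⟩ := hw _ (hok k)
      linarith) hau (fun k _ l hl => (hw _ (hok k)).2.2.2.2.1 l hl)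
    (fun k _ l hl => (hw _ (hok k)).2.2.2.2.2 l hl)
  obtain ⟨κ', hκ'⟩ : ∃ κ' : ℝ, κ' = 1 / (8 * 16 ^ r) := ⟨_, rfl⟩
  have hκ'0 : 0 < κ' := by rw [hκ']; positivity
  have hκ'1 : κ' * (8 * 16 ^ r) ≤ 1 := by
    rw [hκ', one_div_mul_eq_div, div_self (by positivity)]
  refine ⟨K₁ * (4 * 16 ^ r), by positivity, fun κ => ?_⟩
  have big : ∀ {x y : ℝ}, 0 < x → ∃ J₀ : ℕ, ∀ J : ℕ, J₀ ≤ J → y ≤ x * J := by
    intro x y hx
    refine ⟨⌈y / x⌉₊, fun J hJ => ?_⟩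
    have h1 : y / x ≤ J := (Nat.le_ceil _).trans (by exact_mod_cast hJ)
    rw [div_le_iff₀ hx] at h1
    linarith
  obtain ⟨J₁, hJ₁⟩ := big (x := η₀) (y := 7 * C₂ + 8) hη0
  refine Bas.mono J₁ (hwg κ' hκ'0) ?_
  intro J hJ F A w1 b z gc gT g₀ G H T TH Gt Ht W
  have j1 := hJ₁ J hJ
  obtain ⟨B', z', gc', gT', g₀', G', H', T', TH', Gt', Ht', hB', hPB', W'⟩ := w1
  have hJ0 : (0 : ℝ) ≤ J := Nat.cast_nonneg J
  have mulJ : ∀ {x y : ℝ}, x ≤ y → x * J ≤ y * J := fun h => mul_le_mul_of_nonneg_right h hJ0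
  have hηJ0 : 0 ≤ η₀ * J := mul_nonneg hη0.le hJ0
  have hoa : o 0 ≤ a := (W.win.ho 0 (by omega)).2
  have ho0 : 0 ≤ o 0 := (W.win.ho 0 (by omega)).1
  have ho1 := W.win.ho 1 hN
  have ho2 := W.wb.ho 2 hN₂
  have ha0 : 0 ≤ a := ho0.trans hoa
  have haau : a ≤ au := by
    have := (hw a (Or.inr rfl)).2.2.2.1
    linarith
  -- the windows
  obtain ⟨aN, haN⟩ : ∃ n : ℕ, n = ⌊a * J⌋₊ := ⟨_, rfl⟩
  obtain ⟨tN, htN⟩ : ∃ n : ℕ, n = ⌊o 0 * J⌋₊ := ⟨_, rfl⟩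
  obtain ⟨w₁, hw₁⟩ : ∃ n : ℕ, n = ⌊o 1 * J⌋₊ := ⟨_, rfl⟩
  obtain ⟨w₂, hw₂⟩ : ∃ n : ℕ, n = ⌊o 2 * J⌋₊ := ⟨_, rfl⟩
  obtain ⟨uN, huN⟩ : ∃ n : ℕ, n = ⌊au * J⌋₊ := ⟨_, rfl⟩
  have htaN : tN ≤ aN := by rw [htN, haN]; exact Nat.floor_le_floor (mulJ hoa)
  have hwaN : w₁ ≤ aN := by rw [hw₁, haN]; exact Nat.floor_le_floor (mulJ ho1.2)
  have hw2aN : w₂ ≤ aN := by rw [hw₂, haN]; exact Nat.floor_le_floor (mulJ ho2.2)
  have hauN : aN ≤ uN := by rw [haN, huN]; exact Nat.floor_le_floor (mulJ haau)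
  have huJ : uN ≤ J := by
    rw [huN]
    have := Nat.floor_le_floor (mulJ hau)
    rw [one_mul, Nat.floor_natCast] at this
    exact this
  have fa := flo (mul_nonneg ha0 hJ0)
  have fu := flo (mul_nonneg (ha0.trans haau) hJ0)
  have ft := flo (mul_nonneg ho0 hJ0)
  have f1 := flo (mul_nonneg ho1.1 hJ0)
  have f2 := flo (mul_nonneg ho2.1 hJ0)
  rw [← haN] at fa
  rw [← huN] at fu
  rw [← htN] at ft
  rw [← hw₁] at f1
  rw [← hw₂] at f2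
  -- the exponents
  obtain ⟨h, hh⟩ : ∃ h : ℕ, h = ⌊η₀ * J⌋₊ := ⟨_, rfl⟩
  obtain ⟨u, hu⟩ : ∃ u : ℕ, u = ⌊C' * (η₀ * J)⌋₊ := ⟨_, rfl⟩
  obtain ⟨xx, hxx⟩ : ∃ x : ℕ, x = ⌊3 * (C' * (η₀ * J)) + 3 * (η₀ * J)⌋₊ := ⟨_, rfl⟩
  obtain ⟨x, hx⟩ : ∃ x : ℕ, x = xx + 6 := ⟨_, rfl⟩
  have fh := flo hηJ0
  have fC := flo (mul_nonneg hC'0.le hηJ0)
  have fx := flo (by positivity : (0 : ℝ) ≤ 3 * (C' * (η₀ * J)) + 3 * (η₀ * J))
  rw [← hxx] at fx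
  have hx' : (x : ℝ) = xx + 6 := by rw [hx]; push_cast; ring
  have fx2 : 3 * (C' * (η₀ * J)) + 3 * (η₀ * J) + 5 ≤ x := by linarith [fx.2]
  have fx1 : (x : ℝ) ≤ 3 * (C' * (η₀ * J)) + 3 * (η₀ * J) + 6 := by linarith [fx.1]
  rw [← hh] at fh
  rw [← hu] at fC
  have hCηJ : 0 ≤ C' * (η₀ * J) := mul_nonneg hC'0.le hηJ0
  -- the balls and the rows of the new system
  have E1 := W'.win.evs 1 le_rfl
  have hball := E1.ball
  have hrel := E1.relb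
  rw [o1, ← haN] at hball hrel
  have N1 := fun l (hl : l ≤ r) => W'.win.g_num (k := 1) le_rfl hl
  have N2 := fun l (hl : l < r) => (W'.win.t_num (k := 1) le_rfl hl).1 (hRw l hl)
  simp only [o1] at N1 N2
  rw [← haN, ← huN] at N1 N2
  -- the row label
  obtain ⟨P1, hP1⟩ : ∃ y : ℝ, y = (Pu au (o 0) - 2 * (C' * η₀)) * J - C' * (η₀ * J) := ⟨_, rfl⟩
  obtain ⟨P2, hP2⟩ : ∃ y : ℝ, y = (gc' 1 r : ℝ) - C' * (η₀ * J) := ⟨_, rfl⟩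
  have hP10 : 0 ≤ P1 := by
    have h1 := (hw _ (Or.inl rfl)).2.1
    have h2 : 4 * (C' * η₀) * J ≤ Pu au (o 0) * J := mulJ (by linarith)
    rw [hP1]
    have h3 : (Pu au (o 0) - 2 * (C' * η₀)) * J - C' * (η₀ * J) =
        Pu au (o 0) * J - 3 * (C' * (η₀ * J)) := by ring
    rw [h3]
    linarith
  have hP20 : 0 ≤ P2 := by
    have h1 := W'.win.hgr 1 le_rfl
    rw [hP2]
    linarith
  obtain ⟨p, hp⟩ : ∃ p : ℕ, p = ⌊min P1 P2⌋₊ := ⟨_, rfl⟩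
  have fp := flo (le_min hP10 hP20)
  rw [← hp] at fp
  have hpP1 : (p : ℝ) ≤ P1 := fp.1.trans (min_le_left _ _)
  have hpP2 : (p : ℝ) ≤ P2 := fp.1.trans (min_le_right _ _)
  have hrow := W'.win.row 0 (by norm_num) 1 le_rfl (by rw [o0, o1]; exact hoa) p (by
      simp only [o0]
      rw [hP1] at hpP1
      linarith) (by
      rw [hP2] at hpP2
      linarith)
  rw [o0, o1, ← haN, ← htN, ← huN, ← hu] at hrow
  -- the chain of the deep window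
  have E2 := W.win.evs 1 hN
  have hT := E2.thin
  rw [← haN, ← hw₁, Nat.add_sub_cancel' hwaN] at hT
  -- the frame
  have E3 := (W.wb.ev 2 hN₂).rad 2 hN₂
  rw [W.za 2 hN₂, ← haN, ← hw₂, Nat.add_sub_cancel' hw2aN] at E3
  have N3 := fun l (hl : l ≤ r) => W.wb.g_num (k := 2) (l := l) hN₂ (by omega)
  have N4 := fun l (hl : l ≤ r) => W.win.t_num (k := 1) (l := l) hN (by omega)
  rw [← haN, ← hw₁] at N4
  have cst : ∀ {i j : ℕ}, (i : ℝ) ≤ j → i ≤ j := fun h => by exact_mod_cast h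
  have caN : ((uN - aN : ℕ) : ℝ) = uN - aN := by rw [Nat.cast_sub hauN]
  have caw : ((aN - w₁ : ℕ) : ℝ) = aN - w₁ := by rw [Nat.cast_sub hwaN]
  have caw2 : ((aN - w₂ : ℕ) : ℝ) = aN - w₂ := by rw [Nat.cast_sub hw2aN]
  have cat : ((aN - tN : ℕ) : ℝ) = aN - tN := by rw [Nat.cast_sub htaN]
  have q1 : ∀ l < r, gT' 1 l ≤ g₀' 1 l + (uN - aN) + x := fun l hl => by
    refine cst ?_
    push_cast
    rw [caN]
    have h1 := (N2 l hl).2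
    have h2 := (N1 l hl.le).2.2.1
    linarith [fx2]
  have q2 : ∀ l < r, g₀' 1 l ≤ ⌊lv 0 l * J⌋₊ + ((aN - tN) + x) := fun l hl => by
    refine cst ?_
    push_cast
    rw [cat]
    have h1 := (N1 l hl.le).2.2.2.1
    have h2 := mulJ (hl1 l hl).1
    have h3 := Nat.lt_floor_add_one (lv 0 l * (J : ℝ))
    linarith [fx2]
  have q3 : ∀ l < r, g₀' 1 l ≤ (⌊b 2 l * J⌋₊ + (aN - w₂)) + x := fun l hl => by
    refine cst ?_
    push_cast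
    rw [caw2]
    have h1 := (N1 l hl.le).2.2.2.1
    have h2 := mulJ (hl1 l hl).2
    have h3 := (N3 l hl.le).1
    linarith [fx2]
  have q4 : ∀ l ≤ r, gT 1 l ≤ g₀' 1 l + x := fun l hl => by
    refine cst ?_
    push_cast
    have h1 := (N1 l hl).2.2.1
    obtain ⟨k1, k2⟩ := N4 l hl
    by_cases hR : R l
    · have h2 := mulJ ((hl2 l hl).1 hR)
      have h3 := (k1 hR).2
      linarith [fx2]
    · have h2 := mulJ ((hl2 l hl).2 hR)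
      have h3 := (k2 hR).2
      linarith [fx2]
  have q5 : gT 1 r + (uN - aN) ≤ p + x := by
    refine cst ?_
    push_cast
    rw [caN]
    obtain ⟨k1, k2⟩ := N4 r le_rfl
    have hA : (gT 1 r : ℝ) + (uN - aN) ≤ P1 + 3 * (C' * (η₀ * J)) + η₀ * J + 2 := by
      have e1 : (Pu au (o 0) - 2 * (C' * η₀)) * J - C' * (η₀ * J) =
          Pu au (o 0) * J - 3 * (C' * (η₀ * J)) := by ring
      rw [hP1, e1]
      by_cases hR : R r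
      · have h2 := mulJ (hl3 hR)
        have h3 := (k1 hR).2
        linarith
      · have h2 := mulJ (hl4 hR)
        have h3 := (k2 hR).2
        linarith
    have hB : (gT 1 r : ℝ) + (uN - aN) ≤ P2 + C' * (η₀ * J) + 2 * (η₀ * J) + 1 := by
      have h1 := (N1 r le_rfl).2.2.2.2.1
      rw [hP2]
      by_cases hR : R r
      · have h2 := mulJ ((hl2 r le_rfl).1 hR)
        have h3 := (k1 hR).2
        linarith
      · have h2 := mulJ ((hl2 r le_rfl).2 hR)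
        have h3 := (k2 hR).2
        linarith
    have hC : (gT 1 r : ℝ) + (uN - aN) ≤ min P1 P2 + 3 * (C' * (η₀ * J)) + 2 * (η₀ * J) + 2 := by
      rcases min_choice P1 P2 with h | h <;> rw [h] <;> linarith
    linarith [fx2, fp.2]
  obtain ⟨B₂, b1, b2, b3⟩ := htub (F := F) (c := c) (tN := tN) (aN := aN) (v := uN - aN) (p := p)
    (h := h) (u := u) (x := x) (d := (aN - tN) + x) (w₁ := w₁) (w₂ := w₂) (g₀ := g₀' 1)
    (gT := gT 1) (gf := fun l => ⌊b 2 l * J⌋₊ + (aN - w₂)) (gT' := gT' 1)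
    (s := fun l => ⌊lv 0 l * J⌋₊) (κ := κ') (B₀ := B') hinj (by omega) hwaN hw2aN hκ'0.le hκ'1
    (hball.mono le_rfl (fun _ => hDu2) le_rfl le_rfl) (by rw [hh]; exact hrel) hrow
    (fun l hl => ⟨q1 l hl, (E1.rgh l hl (hRw l hl)).2.2⟩)
    ((hT.sub hB').mono le_rfl (fun _ => hD2) le_rfl le_rfl)
    ((E3.sub hB').mono (by omega) (fun _ => hD2) le_rfl le_rfl)
    (fun l hl => ⟨q2 l hl, q3 l hl⟩) q4 q5
  refine ⟨B₂, fun s => Ht' 0 s, fun ω hω => hB' ω (b1 ω hω), ?_, (W'.win.evs 0 (by norm_num)).dH,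
    (W'.win.evs 0 (by norm_num)).pH, fun ω hω V hV0 hV => ?_⟩
  · calc Pe F.p A ≤ K₁ * Pe F.p B' := hPB'
      _ ≤ K₁ * (4 * 16 ^ r * Pe F.p B₂) := mul_le_mul_of_nonneg_left b2 hK₁.le
      _ = _ := by ring
  have h1 := b3 ω hω V hV0 (fun l hl => by
    rw [dd_Gno]
    exact hV l hl)
  rw [← htN, ← hw₁, ← haN]
  refine h1.trans ?_
  have e2 : (2 : ℝ) ^ (C₂ * (h + x + u + 1)) * (2 ^ (aN - tN + x) / 2 ^ gT 1 r) =
      2 ^ (C₂ * (h + x + u + 1) + x) * 2 ^ (aN - tN) / 2 ^ gT 1 r := by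
    rw [pow_add, pow_add]
    ring
  rw [e2]
  refine div_le_div_of_nonneg_right (mul_le_mul_of_nonneg_right (pow_le_pow_right₀ (by norm_num)
    ?_) (by positivity)) (by positivity)
  refine Nat.le_floor ?_
  push_cast
  have k1 : (C₂ : ℝ) * (h + x + u + 1) ≤ C₂ * ((4 * C' + 4) * (η₀ * J) + 7) :=
    mul_le_mul_of_nonneg_left (by linarith [fh.1, fC.1]) (by linarith)
  have k2 : C₁ * η₀ * J ≤ χ * J := mulJ hχ
  have k3 : C₁ * η₀ * J = C₂ * (4 * C' + 4) * (η₀ * J) + 4 * (C' * (η₀ * J)) + 4 * (η₀ * J) := by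
    rw [hC₁]
    ring
  have k4 : (C₂ : ℝ) * ((4 * C' + 4) * (η₀ * J) + 7) =
      C₂ * (4 * C' + 4) * (η₀ * J) + 7 * C₂ := by ring
  linarith

end Pool.V1E
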